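import Pool.Agent.helper3.FS.SpecE
import Pool.Agent.helper84.RT.SpecA

/-!
# fse:KTM (MP_70a088_an, rational class): the truncated logarithm, mean value on the circle (helper18)
-/

set_option autoImplicit false

open Complex Metric Set Filter Topology MeasureTheory
open HY (UD T S hd UN RM)
open RT

noncomputable section

namespace FSE

theorem KTM_bd (x : ℂ) (hx : ‖x‖ ≤ 1) : 0 ≤ kt x ∧ kt x ≤ Real.log 2 := by
  have h1 : (1 / 2 : ℝ) ≤ max ‖x‖ (1 / 2) := le_max_right _ _
  have h2 : max ‖x‖ (1 / 2) ≤ 1 := max_le hx (by norm_num)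
  have h0 : 0 < max ‖x‖ (1 / 2) := by linarith
  constructor
  · exact Real.log_nonneg (by rw [le_div_iff₀ h0]; linarith)
  · apply Real.log_le_log (by positivity)
    rw [div_le_iff₀ h0]
    linarith

theorem KTM_eq (x : ℂ) (hx : 1 / 2 ≤ ‖x‖) : kt x = Real.log (1 / ‖x‖) := by
  unfold kt
  rw [max_eq_left hx]

theorem KTM_low (hMOB : HY.MOB_stmt) (w x : ℂ) (hw : ‖w‖ = 1 / 2) (hx : x ∈ UD) (hx4 : 4 / 5 ≤ ‖x‖) : 1 / 2 ≤ ‖T w x‖ := by
  have hwU : w ∈ UD := by
    show w ∈ ball (0 : ℂ) 1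
    rw [mem_ball_zero_iff, hw]
    norm_num
  have hx1 : ‖x‖ < 1 := by
    have : x ∈ ball (0 : ℂ) 1 := hx
    rwa [mem_ball_zero_iff] at this
  obtain ⟨-, -, -, -, -, -, -, hid, -⟩ := hMOB w hwU
  have h1 := hid x hx
  rw [hw] at h1
  have h2 : 1 - ‖x‖ / 2 ≤ ‖1 - (starRingEnd ℂ) w * x‖ := by
    have h3 := norm_sub_norm_le (1 : ℂ) ((starRingEnd ℂ) w * x)
    rw [norm_one, norm_mul, RCLike.norm_conj, hw] at h3
    linarith
  have h4 : 0 < 1 - ‖x‖ / 2 := by linarith
  have h5 : (1 - ‖x‖ / 2) ^ 2 ≤ ‖1 - (starRingEnd ℂ) w * x‖ ^ 2 := pow_le_pow_left₀ h4.le h2 2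
  have h6 : 0 < ‖1 - (starRingEnd ℂ) w * x‖ ^ 2 := lt_of_lt_of_le (by positivity) h5
  have h7 : 1 - ‖T w x‖ ^ 2 ≤ 3 / 4 := by
    rw [h1, div_le_iff₀ h6]
    nlinarith
  by_contra hcon
  push Not at hcon
  nlinarith [norm_nonneg (T w x)]

/-- **KTM** -/
theorem KTM (hMOB : HY.MOB_stmt) (hAMV : RT.AMV_stmt) : KTM_stmt := by
  refine ⟨KTM_bd, KTM_eq, fun x hx => ?_⟩
  have hx1 : ‖x‖ < 1 := by
    have : x ∈ ball (0 : ℂ) 1 := hx
    rwa [mem_ball_zero_iff] at this
  have habs : |(1 / 2 : ℝ)| = 1 / 2 := abs_of_pos (by norm_num)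
  have hUD : ∀ w : ℂ, ‖w‖ = 1 / 2 → T w x ∈ UD := by
    intro w hw
    have hwU : w ∈ UD := by
      show w ∈ ball (0 : ℂ) 1
      rw [mem_ball_zero_iff, hw]
      norm_num
    exact ((hMOB w hwU).1 x hx).1
  have hT : ContinuousOn (fun w : ℂ => T w x) (sphere (0 : ℂ) (1 / 2)) := by
    have h1 : (fun w : ℂ => T w x) = fun w : ℂ => (x - w) / (1 - (starRingEnd ℂ) w * x) := rfl
    rw [h1]
    apply ContinuousOn.div
    · exact (continuous_const.sub continuous_id).continuousOn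
    · exact (continuous_const.sub (Complex.continuous_conj.mul continuous_const)).continuousOn
    · intro w hw
      rw [mem_sphere_zero_iff_norm] at hw
      intro h
      have h3 : (starRingEnd ℂ) w * x = 1 := (sub_eq_zero.1 h).symm
      have h4 : ‖(starRingEnd ℂ) w * x‖ = 1 := by rw [h3, norm_one]
      rw [norm_mul, RCLike.norm_conj, hw] at h4
      linarith
  have hk : Continuous kt := by
    unfold kt
    apply Continuous.log
    · apply Continuous.div continuous_const (continuous_norm.max continuous_const)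
      intro y
      have : (1 / 2 : ℝ) ≤ max ‖y‖ (1 / 2) := le_max_right _ _
      linarith
    · intro y
      have : (1 / 2 : ℝ) ≤ max ‖y‖ (1 / 2) := le_max_right _ _
      positivity
  have hint : CircleIntegrable (fun w : ℂ => kt (T w x)) 0 (1 / 2) :=
    (hk.comp_continuousOn hT).circleIntegrable (by norm_num)
  refine ⟨hint, ?_⟩
  by_cases h45 : ‖x‖ < 4 / 5
  · rw [if_pos h45]
    have h1 := (KTM_bd x hx1.le).2
    have h2 : 0 ≤ Real.circleAverage (fun w : ℂ => kt (T w x)) 0 (1 / 2) := by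
      apply Real.circleAverage_nonneg_of_nonneg
      intro w hw
      rw [habs, mem_sphere_zero_iff_norm] at hw
      have h3 : T w x ∈ ball (0 : ℂ) 1 := hUD w hw
      rw [mem_ball_zero_iff] at h3
      exact (KTM_bd _ h3.le).1
    linarith
  · rw [if_neg h45, add_zero]
    push Not at h45
    have h1 : Real.circleAverage (fun w : ℂ => kt (T w x)) 0 (1 / 2) =
        Real.circleAverage (fun w : ℂ => Real.log (1 / ‖T w x‖)) 0 (1 / 2) := by
      apply Real.circleAverage_congr_sphere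
      intro w hw
      rw [habs, mem_sphere_zero_iff_norm] at hw
      exact KTM_eq _ (KTM_low hMOB w x hw hx h45)
    rw [h1, (hAMV x hx (by linarith)).2, KTM_eq x (by linarith)]

end FSE

end
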